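import Pool.Agent.W451.MF.SUBW

/-! MF-PA: parallel alternations. -/

namespace Pool.Agent.W451.MF

open Finset Pool.Agent.W957.MF

theorem g_eq (z : Conf) (n : ℕ) {k : ℕ} (σ : Equiv.Perm (Fin k)) :
    g z (Icc 1 n) σ = F n (fun T => Occ z T σ) := rfl

theorem perm_eq_one_of_strictMono {k : ℕ} (τ : Equiv.Perm (Fin k)) (h : StrictMono τ) : τ = 1 := by
  have e : (StrictMono.orderIsoOfSurjective τ h τ.surjective) = OrderIso.refl (Fin k) :=
    Subsingleton.elim _ _
  ext a
  have := congrArg (fun f : Fin k ≃o Fin k => f a) e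
  simp at this
  simp [this]

theorem contained_one {j k : ℕ} (τ : Equiv.Perm (Fin j)) :
    Contained τ (1 : Equiv.Perm (Fin k)) ↔ j ≤ k ∧ τ = 1 := by
  constructor
  · rintro ⟨f, hf, hτ⟩
    refine ⟨?_, ?_⟩
    · have := Fintype.card_le_of_injective f hf.injective
      simpa using this
    · apply perm_eq_one_of_strictMono
      intro a b hab
      rw [hτ]
      exact hf hab
  · rintro ⟨h, rfl⟩
    refine ⟨Fin.castLE h, Fin.strictMono_castLE h, fun i j => ?_⟩
    simp

theorem mu_one_len (τ : Equiv.Perm (Fin 1)) : mu 1 τ = 1 := by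
  unfold mu; simp

theorem mu_two (τ : Equiv.Perm (Fin 2)) : mu 2 τ = -1 := by
  classical
  unfold mu
  rw [if_neg (by norm_num), Fin.sum_univ_two]
  have h0 : ∑ σ : Equiv.Perm (Fin ((0 : Fin 2) : ℕ)),
      (if 1 ≤ (((0 : Fin 2) : ℕ)) ∧ Contained σ τ then mu ((0 : Fin 2) : ℕ) σ else 0) = 0 := by
    apply Finset.sum_eq_zero
    intro σ _
    rw [if_neg]
    rintro ⟨h, _⟩
    simp at h
  have h1 : ∑ σ : Equiv.Perm (Fin ((1 : Fin 2) : ℕ)),
      (if 1 ≤ (((1 : Fin 2) : ℕ)) ∧ Contained σ τ then mu ((1 : Fin 2) : ℕ) σ else 0) = 1 := by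
    have : ∀ σ : Equiv.Perm (Fin 1), (if 1 ≤ 1 ∧ Contained σ τ then mu 1 σ else 0) = 1 := by
      intro σ
      rw [if_pos, mu_one_len]
      refine ⟨le_refl _, fun _ => 0, fun a b hab => ?_, fun i j => ?_⟩
      · exfalso; omega
      · have : i = j := Subsingleton.elim _ _
        subst this; simp
    calc ∑ σ : Equiv.Perm (Fin 1), (if 1 ≤ 1 ∧ Contained σ τ then mu 1 σ else 0)
        = ∑ σ : Equiv.Perm (Fin 1), 1 := Finset.sum_congr rfl (fun σ _ => this σ)
      _ = 1 := by simp
  rw [h0, h1]; norm_num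

theorem mu_one_eq (k : ℕ) (hk : 3 ≤ k) : mu k (1 : Equiv.Perm (Fin k)) = 0 := by
  classical
  induction k using Nat.strong_induction_on with
  | _ k ih =>
    have key : ∀ j : Fin k, (∑ τ : Equiv.Perm (Fin (j : ℕ)),
        if 1 ≤ (j : ℕ) ∧ Contained τ (1 : Equiv.Perm (Fin k)) then mu (j : ℕ) τ else 0)
        = if (j : ℕ) = 1 then 1 else if (j : ℕ) = 2 then -1 else 0 := by
      intro j
      rw [Finset.sum_eq_single (1 : Equiv.Perm (Fin (j : ℕ)))]
      · by_cases h1 : (j : ℕ) = 1
        · rw [if_pos ⟨by omega, (contained_one _).2 ⟨by omega, rfl⟩⟩, if_pos h1]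
          have : ∀ m : ℕ, m = 1 → mu m (1 : Equiv.Perm (Fin m)) = 1 := by
            rintro m rfl; exact mu_one_len _
          exact this _ h1
        · rw [if_neg h1]
          by_cases h2 : (j : ℕ) = 2
          · rw [if_pos ⟨by omega, (contained_one _).2 ⟨by omega, rfl⟩⟩, if_pos h2]
            have : ∀ m : ℕ, m = 2 → mu m (1 : Equiv.Perm (Fin m)) = -1 := by
              rintro m rfl; exact mu_two _
            exact this _ h2
          · rw [if_neg h2]
            by_cases h0 : (j : ℕ) = 0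
            · rw [if_neg]; omega
            · rw [if_pos ⟨by omega, (contained_one _).2 ⟨by omega, rfl⟩⟩]
              exact ih _ j.2 (by omega)
      · intro τ _ hτ
        rw [if_neg]
        rintro ⟨_, h⟩
        exact hτ ((contained_one _).1 h).2
      · intro h; exact absurd (Finset.mem_univ _) h
    unfold mu
    rw [if_neg (by omega)]
    rw [Finset.sum_congr rfl (fun j _ => key j)]
    have : ∑ j : Fin k, (if (j : ℕ) = 1 then (1 : ℤ) else if (j : ℕ) = 2 then -1 else 0)
        = ∑ j ∈ Finset.range k, (if j = 1 then (1 : ℤ) else if j = 2 then -1 else 0) :=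
      (Finset.sum_range (fun j => if j = 1 then (1 : ℤ) else if j = 2 then -1 else 0)).symm
    rw [this]
    obtain ⟨k', rfl⟩ : ∃ k', k = 3 + k' := ⟨k - 3, by omega⟩
    rw [Finset.sum_range_add]
    have h3 : ∑ x ∈ range k', (if 3 + x = 1 then (1 : ℤ) else if 3 + x = 2 then -1 else 0) = 0 := by
      apply Finset.sum_eq_zero
      intro x _
      rw [if_neg (by omega), if_neg (by omega)]
    rw [h3]
    simp [Finset.sum_range_succ]

/-! ### occurrences in a parallel alternation -/

theorem pa_x {z : Conf} {t : ℕ} (h : PAc z t) {i j : ℕ} (hi : i ∈ Icc 1 (2 * t))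
    (hj : j ∈ Icc 1 (2 * t)) : z true i < z true j ↔ i < j := by
  rw [Finset.mem_Icc] at hi hj
  constructor
  · intro hlt
    by_contra hc
    rcases Nat.lt_or_ge j i with h1 | h1
    · have := h.1 j i hj.1 h1 hi.2; omega
    · have : i = j := by omega
      subst this; omega
  · intro hlt; exact h.1 i j hi.1 hlt hj.2

theorem pa_y {z : Conf} {t : ℕ} (h : PAc z t) {i j : ℕ} (hi : i ∈ Icc 1 (2 * t))
    (hj : j ∈ Icc 1 (2 * t)) : z false i < z false j ↔
      (i % 2 = 0 ∧ j % 2 = 1) ∨ (i % 2 = j % 2 ∧ i < j) := by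
  rw [Finset.mem_Icc] at hi hj
  constructor
  · intro hlt
    rcases Nat.mod_two_eq_zero_or_one i with h1 | h1 <;>
      rcases Nat.mod_two_eq_zero_or_one j with h2 | h2
    · right
      refine ⟨by omega, ?_⟩
      by_contra hc
      rcases Nat.lt_or_ge j i with h3 | h3
      · have := h.2.1 j i hj.1 h3 hi.2 (by omega); omega
      · have : i = j := by omega
        subst this; omega
    · left; exact ⟨h1, h2⟩
    · exfalso
      have := h.2.2 i j hi.1 hi.2 hj.1 hj.2 h1 h2; omega
    · right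
      refine ⟨by omega, ?_⟩
      by_contra hc
      rcases Nat.lt_or_ge j i with h3 | h3
      · have := h.2.1 j i hj.1 h3 hi.2 (by omega); omega
      · have : i = j := by omega
        subst this; omega
  · rintro (⟨h1, h2⟩ | ⟨h1, h2⟩)
    · exact h.2.2 j i hj.1 hj.2 hi.1 hi.2 h2 h1
    · exact h.2.1 i j hi.1 h2 hj.2 h1

theorem pa_gp {z : Conf} {t : ℕ} (h : PAc z t) : GP z (Icc 1 (2 * t)) := by
  intro b i hi j hj hij
  rw [Finset.mem_coe] at hi hj
  by_contra hne
  cases b with
  | true =>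
    rcases Nat.lt_or_gt_of_ne hne with h1 | h1
    · have := (pa_x h hi hj).2 h1; omega
    · have := (pa_x h hj hi).2 h1; omega
  | false =>
    have a1 := mt (pa_y h hi hj).2 (by omega)
    have a2 := mt (pa_y h hj hi).2 (by omega)
    omega

/-- an occurrence is a strictly increasing map with the y-order condition -/
theorem pa_occ {z : Conf} {t : ℕ} (h : PAc z t) {T : Finset ℕ} (hT : T ⊆ Icc 1 (2 * t)) {k : ℕ}
    (σ : Equiv.Perm (Fin k)) : Occ z T σ ↔ ∃ f : Fin k → ℕ, (∀ i, f i ∈ T) ∧ StrictMono f ∧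
      ∀ i j, σ i < σ j ↔ ((f i % 2 = 0 ∧ f j % 2 = 1) ∨ (f i % 2 = f j % 2 ∧ f i < f j)) := by
  constructor
  · rintro ⟨f, hf, hx, hy⟩
    refine ⟨f, hf, fun i j hij => ?_, fun i j => ?_⟩
    · exact (pa_x h (hT (hf i)) (hT (hf j))).1 ((hx i j).1 hij)
    · rw [hy, pa_y h (hT (hf i)) (hT (hf j))]
  · rintro ⟨f, hf, hm, hy⟩
    refine ⟨f, hf, fun i j => ?_, fun i j => ?_⟩
    · rw [pa_x h (hT (hf i)) (hT (hf j))]
      exact hm.lt_iff_lt.symm
    · rw [hy, pa_y h (hT (hf i)) (hT (hf j))]

/-- a permutation with a descent has a word -/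
theorem pa_word {z : Conf} {t : ℕ} (h : PAc z t) {k : ℕ} (σ : Equiv.Perm (Fin k)) (hσ : σ ≠ 1)
    (hocc : Occ z (Icc 1 (2 * t)) σ) : ∃ u : Fin k → Bool, ∀ T, T ⊆ Icc 1 (2 * t) →
      (Occ z T σ ↔ SubW T k u) := by
  obtain ⟨i, j, hij, hd⟩ : ∃ i j : Fin k, i < j ∧ σ j < σ i := by
    by_contra hc
    push Not at hc
    apply hσ
    apply perm_eq_one_of_strictMono
    intro a b hab
    rcases (hc a b hab).lt_or_eq with h1 | h1
    · exact h1
    · exact absurd (σ.injective h1) (ne_of_lt hab)
  obtain ⟨f0, hf0, hm0, hy0⟩ := (pa_occ h (Finset.Subset.refl _) σ).1 hocc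
  -- parity is determined
  have par : ∀ f : Fin k → ℕ, StrictMono f →
      (∀ i j, σ i < σ j ↔ ((f i % 2 = 0 ∧ f j % 2 = 1) ∨ (f i % 2 = f j % 2 ∧ f i < f j))) →
      ∀ a, (f a % 2 = 1 ↔ (σ i ≤ σ a ∨ (σ j < σ a ∧ a < i))) := by
    intro f hm hy a
    have e1 := hm hij
    have e2 := (hy j i).1 hd
    have e3 := hy a i
    have e4 := hy a j
    have e5 := hy i a
    have e6 := hy j a
    have hfi : f i % 2 = 1 := by omega
    have hfj : f j % 2 = 0 := by omega
    constructor
    · intro ha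
      by_contra hc
      push Not at hc
      have h1 := e3.1 hc.1
      have h2 : f a < f i := by omega
      have h3 := hc.2 (e6.2 (by omega))
      have h4 := hm.monotone h3
      omega
    · rintro (h1 | ⟨h1, h2⟩)
      · rcases h1.lt_or_eq with h2 | h2
        · have := e5.1 h2; omega
        · have := σ.injective h2; subst this; exact hfi
      · have h3 := e6.1 h1
        have h4 := hm h2
        omega
  refine ⟨fun a => decide (f0 a % 2 = 1), fun T hT => ?_⟩
  rw [pa_occ h hT]
  constructor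
  · rintro ⟨f, hf, hm, hy⟩
    refine ⟨f, hm, hf, fun a => ?_⟩
    rw [decide_eq_decide, par f hm hy a, par f0 hm0 hy0 a]
  · rintro ⟨f, hm, hf, hu⟩
    refine ⟨f, hf, hm, fun a b => ?_⟩
    have ha : f a % 2 = f0 a % 2 := by
      have := decide_eq_decide.1 (hu a); omega
    have hb : f b % 2 = f0 b % 2 := by
      have := decide_eq_decide.1 (hu b); omega
    rw [hy0, ha, hb, hm.lt_iff_lt, hm0.lt_iff_lt]

theorem pa_g_zero {z : Conf} {t : ℕ} (h : PAc z t) (h3 : S_SUBW) {k : ℕ} (σ : Equiv.Perm (Fin k))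
    (hσ : σ ≠ 1) (hk : k < 2 * t) : g z (Icc 1 (2 * t)) σ = 0 := by
  classical
  by_cases hocc : Occ z (Icc 1 (2 * t)) σ
  · obtain ⟨u, hu⟩ := pa_word h σ hσ hocc
    rw [g_eq, F_congr _ _ _ hu]
    have := h3 (2 * t) k u hk
    simp only [F]
    exact this
  · unfold g
    apply Finset.sum_eq_zero
    intro T hT
    exfalso
    rw [Finset.mem_filter, Finset.mem_powerset] at hT
    obtain ⟨f, h1, h2, h3⟩ := hT.2
    exact hocc ⟨f, fun i => hT.1 (h1 i), h2, h3⟩

/-! ### the pattern 12 -/

theorem pa_occ12 {z : Conf} {t : ℕ} (h : PAc z t) {T : Finset ℕ} (hT : T ⊆ Icc 1 (2 * t)) :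
    ¬ Occ z T (1 : Equiv.Perm (Fin 2)) ↔ ∀ p ∈ T, ∀ q ∈ T, p < q → p % 2 = 1 ∧ q % 2 = 0 := by
  rw [pa_occ h hT]
  constructor
  · intro hn p hp q hq hpq
    by_contra hc
    apply hn
    refine ⟨![p, q], ?_, ?_, ?_⟩
    · intro i; fin_cases i <;> simp [hp, hq]
    · intro i j hij
      fin_cases i <;> fin_cases j <;> simp at hij ⊢
      exact hpq
    · intro i j
      fin_cases i <;> fin_cases j <;> simp <;> omega
  · rintro hp ⟨f, hf, hm, hy⟩
    have h1 := hp (f 0) (hf 0) (f 1) (hf 1) (hm (by decide))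
    have h2 := (hy 0 1).1 (by decide)
    omega

theorem F_none (m : ℕ) (P : Finset ℕ → Prop) (h : ∀ T, T ⊆ Icc 1 m → ¬ P T) : F m P = 0 := by
  classical
  unfold F
  apply Finset.sum_eq_zero
  intro T hT
  rw [Finset.mem_filter, Finset.mem_powerset] at hT
  exact absurd hT.2 (h T hT.1)

/-- all elements of `T` are odd and there is at most one -/
theorem F_b (m : ℕ) : F m (fun T => ∀ p ∈ T, p % 2 = 1 ∧ ∀ q ∈ T, q = p)
    = 1 - (((m + 1) / 2 : ℕ) : ℤ) := by
  induction m with
  | zero =>
    rw [F_empty]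
    · simp
    · intro T hT
      have : T = ∅ := by
        rw [Finset.eq_empty_iff_forall_notMem]
        intro x hx
        have := Finset.mem_Icc.1 (hT hx); omega
      subst this; simp
  | succ m ih =>
    rw [F_rec, ih]
    rcases Nat.mod_two_eq_zero_or_one m with hm | hm
    · rw [F_empty]
      · have : (m + 1 + 1) / 2 = (m + 1) / 2 + 1 := by omega
        rw [this]; push_cast; ring
      · intro T hT
        constructor
        · intro hP
          rw [Finset.eq_empty_iff_forall_notMem]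
          intro x hx
          have h1 := (hP (m + 1) (Finset.mem_insert_self _ _)).2 x (Finset.mem_insert_of_mem hx)
          have h2 := Finset.mem_Icc.1 (hT hx)
          omega
        · rintro rfl
          intro p hp
          have : p = m + 1 := by simpa using hp
          subst this
          refine ⟨by omega, fun q hq => by simpa using hq⟩
    · have h0 : F m (fun T => ∀ p ∈ insert (m + 1) T, p % 2 = 1 ∧ ∀ q ∈ insert (m + 1) T, q = p)
          = 0 := by
        apply F_none
        intro T hT hP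
        have := (hP (m + 1) (Finset.mem_insert_self _ _)).1
        omega
      rw [h0]
      have : (m + 1 + 1) / 2 = (m + 1) / 2 := by omega
      rw [this]; ring

theorem F_a (s : ℕ) : F (2 * s) (fun T => ∀ p ∈ T, ∀ q ∈ T, p < q → p % 2 = 1 ∧ q % 2 = 0) * 2
    = 2 - 4 * (s : ℤ) + s * (s + 1) := by
  induction s with
  | zero =>
    rw [F_empty]
    · simp
    · intro T hT
      have : T = ∅ := by
        rw [Finset.eq_empty_iff_forall_notMem]
        intro x hx
        have := Finset.mem_Icc.1 (hT hx); omega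
      subst this; simp
  | succ s ih =>
    have e : 2 * (s + 1) = 2 * s + 1 + 1 := by ring
    rw [e, F_rec, F_rec]
    have h1 : F (2 * s) (fun T => ∀ p ∈ insert (2 * s + 1) T, ∀ q ∈ insert (2 * s + 1) T,
        p < q → p % 2 = 1 ∧ q % 2 = 0) = 1 := by
      apply F_empty
      intro T hT
      constructor
      · intro hP
        rw [Finset.eq_empty_iff_forall_notMem]
        intro x hx
        have h2 := Finset.mem_Icc.1 (hT hx)
        have h1 := (hP x (Finset.mem_insert_of_mem hx) (2 * s + 1) (Finset.mem_insert_self _ _)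
          (by omega)).2
        omega
      · rintro rfl
        intro p hp q hq hpq
        have h1 : p = 2 * s + 1 := by simpa using hp
        have h2 : q = 2 * s + 1 := by simpa using hq
        omega
    have h2 : F (2 * s + 1) (fun T => ∀ p ∈ insert (2 * s + 1 + 1) T,
        ∀ q ∈ insert (2 * s + 1 + 1) T, p < q → p % 2 = 1 ∧ q % 2 = 0)
        = F (2 * s + 1) (fun T => ∀ p ∈ T, p % 2 = 1 ∧ ∀ q ∈ T, q = p) := by
      apply F_congr
      intro T hT
      constructor
      · intro hP p hp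
        have a1 := Finset.mem_Icc.1 (hT hp)
        have a2 := hP p (Finset.mem_insert_of_mem hp) (2 * s + 1 + 1) (Finset.mem_insert_self _ _)
          (by omega)
        refine ⟨a2.1, fun q hq => ?_⟩
        have b1 := Finset.mem_Icc.1 (hT hq)
        have b2 := hP q (Finset.mem_insert_of_mem hq) (2 * s + 1 + 1) (Finset.mem_insert_self _ _)
          (by omega)
        by_contra hne
        rcases Nat.lt_or_gt_of_ne hne with h | h
        · have := hP q (Finset.mem_insert_of_mem hq) p (Finset.mem_insert_of_mem hp) h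
          omega
        · have := hP p (Finset.mem_insert_of_mem hp) q (Finset.mem_insert_of_mem hq) h
          omega
      · intro hP p hp q hq hpq
        rcases Finset.mem_insert.1 hp with h | h <;> rcases Finset.mem_insert.1 hq with h' | h'
        · omega
        · have := Finset.mem_Icc.1 (hT h'); omega
        · subst h'
          exact ⟨(hP p h).1, by omega⟩
        · have := (hP p h).2 q h'; omega
    rw [h1, h2, F_b]
    have e2 : (2 * s + 1 + 1) / 2 = s + 1 := by omega
    rw [e2, sub_sub, sub_mul, ih]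
    push_cast
    ring

theorem pa_g12 {z : Conf} {t : ℕ} (h : PAc z t) (ht : 1 ≤ t) :
    2 * g z (Icc 1 (2 * t)) (1 : Equiv.Perm (Fin 2)) = -(2 - 4 * (t : ℤ) + t * (t + 1)) := by
  rw [g_eq, F_not _ (by omega), F_congr _ _ _ (fun T hT => pa_occ12 h hT), ← F_a]
  ring

/-- pattern of length one -/
theorem g_len1 (z : Conf) (n : ℕ) (hn : 1 ≤ n) (σ : Equiv.Perm (Fin 1)) :
    g z (Icc 1 n) σ = -1 := by
  rw [g_eq, F_not _ hn, F_empty]
  intro T _
  constructor
  · intro hno
    rw [Finset.eq_empty_iff_forall_notMem]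
    intro x hx
    apply hno
    refine ⟨fun _ => x, fun _ => hx, fun i j => ?_, fun i j => ?_⟩
    · have : i = j := Subsingleton.elim _ _
      subst this; simp
    · have : i = j := Subsingleton.elim _ _
      subst this; simp
  · rintro rfl ⟨f, hf, _⟩
    exact absurd (hf 0) (by simp)

theorem occ_card_le {z : Conf} {T : Finset ℕ} {k : ℕ} {σ : Equiv.Perm (Fin k)} (h : Occ z T σ) :
    k ≤ T.card := by
  obtain ⟨f, hf, hx, _⟩ := h
  have hinj : Function.Injective f := by
    intro i j hij
    by_contra hne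
    rcases lt_or_gt_of_ne hne with h | h
    · have := (hx i j).1 h; rw [hij] at this; omega
    · have := (hx j i).1 h; rw [hij] at this; omega
  have := Finset.card_le_card_of_injOn (s := Finset.univ) (t := T) f (fun i _ => hf i)
    hinj.injOn
  simpa using this

/-- the full pattern -/
theorem g_full (z : Conf) (S : Finset ℕ) {k : ℕ} (hk : S.card = k) (σ : Equiv.Perm (Fin k))
    (hσ : Occ z S σ) : g z S σ = (-1) ^ k := by
  classical
  unfold g
  have : S.powerset.filter (fun T => Occ z T σ) = {S} := by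
    ext T
    simp only [mem_filter, mem_powerset, mem_singleton]
    constructor
    · rintro ⟨h1, h2⟩
      exact Finset.eq_of_subset_of_card_le h1 (by rw [hk]; exact occ_card_le h2)
    · rintro rfl; exact ⟨Finset.Subset.refl _, hσ⟩
  rw [this]; simp [hk]

theorem g_none (z : Conf) (S : Finset ℕ) {k : ℕ} (σ : Equiv.Perm (Fin k))
    (hσ : ¬ Occ z S σ) : g z S σ = 0 := by
  classical
  unfold g
  apply Finset.sum_eq_zero
  intro T hT
  exfalso
  rw [Finset.mem_filter, Finset.mem_powerset] at hT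
  obtain ⟨f, h1, h2, h3⟩ := hT.2
  exact hσ ⟨f, fun i => hT.1 (h1 i), h2, h3⟩

theorem pat_cast (h2 : S_PAT) (z : Conf) (S : Finset ℕ) (hS : GP z S) (n : ℕ) (hn : S.card = n) :
    ∃ σ : Equiv.Perm (Fin n), Occ z S σ ∧ (∀ σ' : Equiv.Perm (Fin n), Occ z S σ' → σ' = σ) ∧
      (∀ (k : ℕ) (τ : Equiv.Perm (Fin k)), Occ z S τ ↔ Contained τ σ) := by
  subst hn
  exact h2 z S hS

theorem t_PA (h1 : S_W) (h2 : S_PAT) (h3 : S_SUBW) : S_PA := by
  classical
  intro z t ht h
  have hgp := pa_gp h
  have hcard : (Icc 1 (2 * t)).card = 2 * t := by simp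
  obtain ⟨σ0, ho, huniq, _⟩ := pat_cast h2 z (Icc 1 (2 * t)) hgp (2 * t) hcard
  refine ⟨σ0, ho, ?_⟩
  have hW := h1 z (Icc 1 (2 * t)) hgp
  rw [hcard] at hW
  have hsub : ({1, 2, 2 * t} : Finset ℕ) ⊆ Icc 1 (2 * t) := by
    intro x hx
    simp only [mem_insert, mem_singleton] at hx
    rw [mem_Icc]; omega
  rw [← Finset.sum_subset hsub] at hW
  · rw [Finset.sum_insert (by simp; omega), Finset.sum_insert (by simp; omega),
      Finset.sum_singleton] at hW
    have e1 : ∑ σ : Equiv.Perm (Fin 1), mu 1 σ * g z (Icc 1 (2 * t)) σ = -1 := by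
      rw [Finset.sum_congr rfl (fun σ _ => by rw [mu_one_len, g_len1 z _ (by omega) σ])]
      simp
    have e2 : ∑ σ : Equiv.Perm (Fin 2), mu 2 σ * g z (Icc 1 (2 * t)) σ
        = - g z (Icc 1 (2 * t)) (1 : Equiv.Perm (Fin 2)) := by
      rw [Finset.sum_eq_single (1 : Equiv.Perm (Fin 2))]
      · rw [mu_two]; ring
      · intro σ _ hσ
        rw [pa_g_zero h h3 σ hσ (by omega)]; ring
      · intro hc; exact absurd (Finset.mem_univ _) hc
    have e3 : ∑ σ : Equiv.Perm (Fin (2 * t)), mu (2 * t) σ * g z (Icc 1 (2 * t)) σ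
        = mu (2 * t) σ0 := by
      rw [Finset.sum_eq_single σ0]
      · rw [g_full z _ hcard σ0 ho, pow_mul]; norm_num
      · intro σ _ hσ
        rw [g_none z _ σ (fun hc => hσ (huniq σ hc))]; ring
      · intro hc; exact absurd (Finset.mem_univ _) hc
    rw [e1, e2, e3] at hW
    have e4 := pa_g12 h (by omega)
    have ht' : (2 : ℤ) ≤ t := by exact_mod_cast ht
    have hfin : 2 * mu (2 * t) σ0 = -((t : ℤ) * (t + 1)) := by
      push_cast at hW
      linarith
    have : mu (2 * t) σ0 ≤ -(t : ℤ) := by nlinarith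
    rw [abs_of_nonpos (by linarith)]
    linarith
  · intro k hk hk'
    simp only [mem_insert, mem_singleton, not_or] at hk'
    rw [mem_Icc] at hk
    apply Finset.sum_eq_zero
    intro σ _
    by_cases hσ : σ = 1
    · subst hσ
      rw [mu_one_eq k (by omega)]; ring
    · rw [pa_g_zero h h3 σ hσ (by omega)]; ring

end Pool.Agent.W451.MF
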