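import Pool.Agent.W957.MF.Stm2

/-! MF-SUBW: subwords of alternating words. -/

namespace Pool.Agent.W451.MF

open Finset Pool.Agent.W957.MF

open Classical in
/-- signed number of subsets of `[1,m]` with the property `P` -/
noncomputable def F (m : ℕ) (P : Finset ℕ → Prop) : ℤ :=
  ∑ T ∈ (Icc 1 m).powerset.filter (fun T => P T), (-1 : ℤ) ^ T.card

theorem F_congr (m : ℕ) (P P' : Finset ℕ → Prop) (h : ∀ T, T ⊆ Icc 1 m → (P T ↔ P' T)) :
    F m P = F m P' := by
  classical
  unfold F
  apply Finset.sum_congr _ (fun _ _ => rfl)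
  apply Finset.filter_congr
  intro T hT
  exact h T (Finset.mem_powerset.1 hT)

theorem F_rec (m : ℕ) (P : Finset ℕ → Prop) :
    F (m + 1) P = F m P - F m (fun T => P (insert (m + 1) T)) := by
  classical
  unfold F
  have hI : Icc 1 (m + 1) = insert (m + 1) (Icc 1 m) := by
    ext x; simp only [mem_Icc, mem_insert]; omega
  have hn : (m + 1) ∉ Icc 1 m := by simp
  rw [Finset.sum_filter, Finset.sum_filter, Finset.sum_filter, hI,
    Finset.sum_powerset_insert hn, sub_eq_add_neg, ← Finset.sum_neg_distrib]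
  congr 1
  apply Finset.sum_congr rfl
  intro T hT
  have hT' : (m + 1) ∉ T := fun h => hn (Finset.mem_powerset.1 hT h)
  rw [Finset.card_insert_of_notMem hT']
  split_ifs <;> simp [pow_succ]

theorem F_true (m : ℕ) (hm : 1 ≤ m) : F m (fun _ => True) = 0 := by
  classical
  simp only [F]
  rw [Finset.filter_true_of_mem (fun _ _ => trivial)]
  apply Finset.sum_powerset_neg_one_pow_card_of_nonempty
  exact ⟨1, by simp; omega⟩

theorem F_empty (m : ℕ) (P : Finset ℕ → Prop) (h : ∀ T, T ⊆ Icc 1 m → (P T ↔ T = ∅)) :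
    F m P = 1 := by
  classical
  rw [F_congr m P (fun T => T = ∅) h]
  simp only [F]
  have : (Icc 1 m).powerset.filter (fun T => T = ∅) = {∅} := by
    ext T; simp only [mem_filter, mem_powerset, mem_singleton]
    constructor
    · exact fun h => h.2
    · rintro rfl; exact ⟨Finset.empty_subset _, rfl⟩
  rw [this]; simp

theorem F_not (m : ℕ) (hm : 1 ≤ m) (P : Finset ℕ → Prop) : F m P = - F m (fun T => ¬ P T) := by
  classical
  have h := F_true m hm
  simp only [F] at *
  rw [Finset.filter_true_of_mem (fun _ _ => trivial)] at h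
  rw [← Finset.sum_filter_add_sum_filter_not _ (fun T => P T)] at h
  linarith

theorem subW_zero (T : Finset ℕ) (u : Fin 0 → Bool) : SubW T 0 u :=
  ⟨fun a => a.elim0, fun a => a.elim0, fun a => a.elim0, fun a => a.elim0⟩

theorem subW_last_ne (n m : ℕ) (u : Fin (m + 1) → Bool) (hu : u (Fin.last m) ≠ decide ((n + 1) % 2 = 1))
    (T : Finset ℕ) (hT : T ⊆ Icc 1 n) : SubW (insert (n + 1) T) (m + 1) u ↔ SubW T (m + 1) u := by
  constructor
  · rintro ⟨f, hf, hfT, hfu⟩
    refine ⟨f, hf, fun a => ?_, hfu⟩
    rcases Finset.mem_insert.1 (hfT a) with h | h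
    · exfalso
      have ha : a = Fin.last m := by
        by_contra hne
        have hlt : a < Fin.last m := lt_of_le_of_ne (Fin.le_last a) hne
        have h1 := hf hlt
        have h2 : f (Fin.last m) ≤ n + 1 := by
          rcases Finset.mem_insert.1 (hfT (Fin.last m)) with h | h
          · omega
          · have := Finset.mem_Icc.1 (hT h); omega
        omega
      subst ha
      apply hu
      rw [hfu, h]
    · exact h
  · rintro ⟨f, hf, hfT, hfu⟩
    exact ⟨f, hf, fun a => Finset.mem_insert_of_mem (hfT a), hfu⟩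

theorem subW_last_eq (n m : ℕ) (u : Fin (m + 1) → Bool) (hu : u (Fin.last m) = decide ((n + 1) % 2 = 1))
    (T : Finset ℕ) (hT : T ⊆ Icc 1 n) :
    SubW (insert (n + 1) T) (m + 1) u ↔ SubW T m (Fin.init u) := by
  constructor
  · rintro ⟨f, hf, hfT, hfu⟩
    refine ⟨fun a => f a.castSucc, fun a b hab => hf (Fin.castSucc_lt_castSucc_iff.2 hab),
      fun a => ?_, fun a => hfu a.castSucc⟩
    rcases Finset.mem_insert.1 (hfT a.castSucc) with h | h
    · exfalso
      have h1 := hf (Fin.castSucc_lt_last a)
      have h2 : f (Fin.last m) ≤ n + 1 := by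
        rcases Finset.mem_insert.1 (hfT (Fin.last m)) with h | h
        · omega
        · have := Finset.mem_Icc.1 (hT h); omega
      omega
    · exact h
  · rintro ⟨f, hf, hfT, hfu⟩
    refine ⟨Fin.snoc f (n + 1), ?_, ?_, ?_⟩
    · intro a b hab
      have ha : a ≠ Fin.last m := fun h => by
        subst h; exact absurd hab (not_lt.2 (Fin.le_last b))
      obtain ⟨a', rfl⟩ := Fin.exists_castSucc_eq.2 ha
      rw [Fin.snoc_castSucc (α := fun _ => ℕ)]
      by_cases hb : b = Fin.last m
      · subst hb
        rw [Fin.snoc_last (α := fun _ => ℕ)]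
        have := Finset.mem_Icc.1 (hT (hfT a')); omega
      · obtain ⟨b', rfl⟩ := Fin.exists_castSucc_eq.2 hb
        rw [Fin.snoc_castSucc (α := fun _ => ℕ)]
        exact hf (Fin.castSucc_lt_castSucc_iff.1 hab)
    · intro a
      by_cases ha : a = Fin.last m
      · subst ha; rw [Fin.snoc_last (α := fun _ => ℕ)]; exact Finset.mem_insert_self _ _
      · obtain ⟨a', rfl⟩ := Fin.exists_castSucc_eq.2 ha
        rw [Fin.snoc_castSucc (α := fun _ => ℕ)]
        exact Finset.mem_insert_of_mem (hfT a')
    · intro a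
      by_cases ha : a = Fin.last m
      · subst ha; rw [Fin.snoc_last (α := fun _ => ℕ)]; exact hu
      · obtain ⟨a', rfl⟩ := Fin.exists_castSucc_eq.2 ha
        rw [Fin.snoc_castSucc (α := fun _ => ℕ)]
        exact hfu a'

theorem F_subW_ne (n m : ℕ) (u : Fin (m + 1) → Bool)
    (hu : u (Fin.last m) ≠ decide ((n + 1) % 2 = 1)) :
    F (n + 1) (fun S => SubW S (m + 1) u) = 0 := by
  rw [F_rec, F_congr n (fun T => SubW (insert (n + 1) T) (m + 1) u) (fun T => SubW T (m + 1) u)
    (fun T hT => subW_last_ne n m u hu T hT)]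
  ring

theorem F_subW (m : ℕ) : ∀ (n : ℕ) (u : Fin m → Bool), m < n → F n (fun S => SubW S m u) = 0 := by
  induction m with
  | zero =>
    intro n u hn
    rw [F_congr n (fun S => SubW S 0 u) (fun _ => True) (fun T _ => ⟨fun _ => trivial,
      fun _ => subW_zero T u⟩)]
    exact F_true n (by omega)
  | succ m ih =>
    intro n u hn
    obtain ⟨n, rfl⟩ : ∃ n', n = n' + 2 := ⟨n - 2, by omega⟩
    by_cases hu : u (Fin.last m) = decide ((n + 1 + 1) % 2 = 1)
    · have h1 : F (n + 1) (fun S => SubW S (m + 1) u) = 0 := by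
        apply F_subW_ne
        rw [hu]
        rcases Nat.mod_two_eq_zero_or_one n with h | h
        · have a1 : (n + 1 + 1) % 2 = 0 := by omega
          have a2 : (n + 1) % 2 = 1 := by omega
          simp [a1, a2]
        · have a1 : (n + 1 + 1) % 2 = 1 := by omega
          have a2 : (n + 1) % 2 = 0 := by omega
          simp [a1, a2]
      have h2 := ih (n + 1) (Fin.init u) (by omega)
      rw [show n + 2 = n + 1 + 1 from rfl, F_rec, h1,
        F_congr (n + 1) (fun T => SubW (insert (n + 1 + 1) T) (m + 1) u)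
          (fun T => SubW T m (Fin.init u)) (fun T hT => subW_last_eq (n + 1) m u hu T hT), h2]
      ring
    · exact F_subW_ne (n + 1) m u hu

theorem t_SUBW : S_SUBW := by
  intro n m u h
  have := F_subW m n u h
  unfold F at this
  exact this

end Pool.Agent.W451.MF
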